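import Mathlib

/-!
No nontrivial Korovin orbit is paracompact.
-/

set_option autoImplicit false

open Set Filter Topology

namespace Pool.Agent.Results.MP_f351c6_gt.NotParacompact

universe u v

/-- The orbit `G_f = {g f : g ∈ G}` of `f : G → X`, where `(g f)(x) = f (x g)`. -/
def orbit {X : Type u} {G : Type v} [CommGroup G] (f : G → X) : Set (G → X) :=
  {y | ∃ g : G, y = fun x => f (x * g)}

/-- `f : G → X` is a Korovin mapping: the projection of its orbit to `X ^ M` is onto for every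
countable `M ⊆ G`. -/
def IsKorovin {X : Type u} {G : Type v} [CommGroup G] (f : G → X) : Prop :=
  ∀ M : Set G, M.Countable → (fun (y : G → X) (m : M) => y m) '' orbit f = univ

variable {X : Type u} {G : Type v} [CommGroup G]

/-- The form in which the Korovin property is used. -/
lemma exists_mem {f : G → X} (hf : IsKorovin f) (M : Set G) (hM : M.Countable) (t : G → X) :
    ∃ y ∈ orbit f, ∀ m ∈ M, y m = t m := by
  have h1 : (fun m : M => t m) ∈ (fun (y : G → X) (m : M) => y m) '' orbit f := by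
    rw [hf M hM]; exact mem_univ _
  obtain ⟨y, hy, hyt⟩ := h1
  exact ⟨y, hy, fun m hm => congrFun hyt ⟨m, hm⟩⟩

omit [CommGroup G] in
/-- A countable set closed under a countable-valued operation on finite sets. -/
lemma exists_closed (T : Set G → Set G) (hT : ∀ F, (T F).Countable) :
    ∃ D : Set G, D.Countable ∧ ∀ F : Set G, F.Finite → F ⊆ D → T F ⊆ D := by
  let Dn : ℕ → Set G := fun n =>
    Nat.rec ∅ (fun _ D => D ∪ ⋃ F ∈ {t : Set G | t.Finite ∧ t ⊆ D}, T F) n
  have hsucc : ∀ n, Dn (n + 1) = Dn n ∪ ⋃ F ∈ {t : Set G | t.Finite ∧ t ⊆ Dn n}, T F :=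
    fun n => rfl
  have hmono : Monotone Dn := monotone_nat_of_le_succ fun n => by
    rw [hsucc]; exact subset_union_left
  have hc : ∀ n, (Dn n).Countable := by
    intro n
    induction n with
    | zero => exact countable_empty
    | succ n ih =>
      rw [hsucc]
      exact ih.union ((countable_ofPred_finite_subset ih).biUnion fun F _ => hT F)
  refine ⟨⋃ n, Dn n, countable_iUnion hc, ?_⟩
  intro F hF hFD
  have h1 : ∃ n, F ⊆ Dn n := by
    induction F, hF using Set.Finite.induction_on with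
    | empty => exact ⟨0, empty_subset _⟩
    | @insert a s _ _ ih =>
      obtain ⟨n, hn⟩ := ih ((subset_insert _ _).trans hFD)
      obtain ⟨m, hm⟩ := mem_iUnion.1 (hFD (mem_insert a s))
      refine ⟨max n m, insert_subset (hmono (le_max_right _ _) hm)
        (hn.trans (hmono (le_max_left _ _)))⟩
  obtain ⟨n, hn⟩ := h1
  intro x hx
  refine mem_iUnion.2 ⟨n + 1, ?_⟩
  rw [hsucc]
  exact Or.inr (mem_biUnion (show F ∈ {t : Set G | t.Finite ∧ t ⊆ Dn n} from ⟨hF, hn⟩) hx)

variable [TopologicalSpace X]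

/-- If the orbit is Hausdorff then `X` has a nonempty open set different from `X`. -/
lemma exists_open [Nontrivial X] {f : G → X} (hf : IsKorovin f) (hT2 : T2Space (orbit f)) :
    ∃ U : Set X, IsOpen U ∧ U.Nonempty ∧ ∃ b, b ∉ U := by
  by_contra hcon
  push Not at hcon
  have htriv : ∀ (U : Set X), IsOpen U → U.Nonempty → U = univ := fun U h1 h2 =>
    eq_univ_of_forall (hcon U h1 h2)
  obtain ⟨a, b, hab⟩ := exists_pair_ne X
  obtain ⟨y, hy, hya⟩ := exists_mem hf {1} (countable_singleton _) fun _ => a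
  obtain ⟨z, hz, hzb⟩ := exists_mem hf {1} (countable_singleton _) fun _ => b
  have hyz : (⟨y, hy⟩ : orbit f) ≠ ⟨z, hz⟩ := by
    intro h
    have h1 : y = z := congrArg Subtype.val h
    apply hab
    rw [← hya 1 rfl, ← hzb 1 rfl, h1]
  obtain ⟨V, W, hV, hW, hyV, hzW, hVW⟩ := hT2.t2 hyz
  obtain ⟨O, hO, rfl⟩ := isOpen_induced_iff.1 hV
  obtain ⟨I, u, hu, huO⟩ := isOpen_pi_iff.1 hO y hyV
  have h1 : z ∈ O := by
    apply huO
    intro i hi
    rw [htriv (u i) (hu i hi).1 ⟨_, (hu i hi).2⟩]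
    exact mem_univ _
  exact disjoint_left.1 hVW (show (⟨z, hz⟩ : orbit f) ∈ Subtype.val ⁻¹' O from h1) hzW

/-- **No nontrivial Korovin orbit is paracompact.** -/
theorem result (X : Type u) [TopologicalSpace X] [Nontrivial X] (G : Type v) [CommGroup G]
    (f : G → X) (hf : IsKorovin f) : ¬ (T2Space (orbit f) ∧ ParacompactSpace (orbit f)) := by
  rintro ⟨hT2, hpara⟩
  obtain ⟨U, hU, ⟨a, ha⟩, b, hb⟩ := exists_open hf hT2
  -- the open cover
  let O : G → Set (orbit f) := fun g => {y | y.1 g ∈ U}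
  have hO : ∀ g, IsOpen (O g) := fun g =>
    hU.preimage ((continuous_apply g).comp continuous_subtype_val)
  have hcov : ⋃ g, O g = univ := by
    refine eq_univ_of_forall ?_
    rintro ⟨y, g, rfl⟩
    obtain ⟨z, ⟨k, rfl⟩, hz⟩ := exists_mem hf {1} (countable_singleton _) fun _ => a
    have h1 : f (1 * k) = a := hz 1 rfl
    refine mem_iUnion.2 ⟨k * g⁻¹, ?_⟩
    show f (k * g⁻¹ * g) ∈ U
    rw [inv_mul_cancel_right, ← one_mul k, h1]
    exact ha
  obtain ⟨v, hv, hvc, hvl, hvO⟩ := precise_refinement O hO hcov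
  -- many members of the refinement have points equal to `b` on a given finite set
  have hinf : ∀ F : Set G, F.Finite →
      {g | ∃ y ∈ v g, ∀ s ∈ F, (y : orbit f).1 s = b}.Infinite := by
    intro F hF hfin
    obtain ⟨y, hy, hyb⟩ := exists_mem hf (F ∪ {g | ∃ y ∈ v g, ∀ s ∈ F, (y : orbit f).1 s = b})
      (hF.countable.union hfin.countable) fun _ => b
    have h1 : (⟨y, hy⟩ : orbit f) ∈ ⋃ g, v g := by rw [hvc]; exact mem_univ _
    obtain ⟨g, hg⟩ := mem_iUnion.1 h1
    have h2 : g ∈ {g | ∃ y ∈ v g, ∀ s ∈ F, (y : orbit f).1 s = b} :=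
      ⟨⟨y, hy⟩, hg, fun s hs => hyb s (Or.inl hs)⟩
    have h3 : y g ∈ U := hvO g hg
    rw [hyb g (Or.inr h2)] at h3
    exact hb h3
  -- finite supports
  have hsup : ∀ F : Set G, ∃ g : ℕ → G, ∃ y : ℕ → G → X, ∃ S : ℕ → Set G,
      F.Finite → Function.Injective g ∧ (∀ i s, s ∈ F → y i s = b) ∧ (∀ i, (S i).Finite) ∧
      ∀ i, ∀ z : orbit f, (∀ s ∈ S i, z.1 s = y i s) → z ∈ v (g i) := by
    intro F
    by_cases hF : F.Finite
    · have h1 := hinf F hF
      have h2 : ∀ i : ℕ, ∃ (y : G → X) (S : Set G), (∀ s ∈ F, y s = b) ∧ S.Finite ∧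
          ∀ z : orbit f, (∀ s ∈ S, z.1 s = y s) → z ∈ v (Set.Infinite.natEmbedding _ h1 i : G) := by
        intro i
        obtain ⟨y, hyv, hyF⟩ := (Set.Infinite.natEmbedding _ h1 i).2
        obtain ⟨W, hW, hWv⟩ := isOpen_induced_iff.1 (hv (Set.Infinite.natEmbedding _ h1 i : G))
        have hyW : y.1 ∈ W := by
          rw [← hWv] at hyv
          exact hyv
        obtain ⟨I, u, hu, huW⟩ := isOpen_pi_iff.1 hW y.1 hyW
        refine ⟨y.1, I, hyF, I.finite_toSet, fun z hz => ?_⟩
        rw [← hWv]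
        apply huW
        intro s hs
        rw [hz s hs]
        exact (hu s hs).2
      choose y S h3 h4 h5 using h2
      exact ⟨fun i => (Set.Infinite.natEmbedding _ h1 i : G), y, S, fun _ =>
        ⟨Subtype.val_injective.comp (Set.Infinite.natEmbedding _ h1).injective, h3, h4, h5⟩⟩
    · exact ⟨fun _ => 1, fun _ _ => b, fun _ => ∅, fun h => absurd h hF⟩
  choose g y S hgS using hsup
  obtain ⟨D, hDc, hD⟩ := exists_closed (fun F => ⋃ i, {s | F.Finite ∧ s ∈ S F i}) (by
    intro F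
    refine countable_iUnion fun i => ?_
    by_cases hF : F.Finite
    · exact (((hgS F hF).2.2.1 i).countable).mono fun s hs => hs.2
    · exact countable_empty.mono fun s hs => absurd hs.1 hF)
  obtain ⟨h, hh, hhb⟩ := exists_mem hf D hDc fun _ => b
  obtain ⟨N, hN, hNfin⟩ := hvl ⟨h, hh⟩
  obtain ⟨W, hWN, hWo, hWh⟩ := mem_nhds_iff.1 hN
  obtain ⟨Q, hQ, rfl⟩ := isOpen_induced_iff.1 hWo
  obtain ⟨I, w, hw, hwQ⟩ := isOpen_pi_iff.1 hQ h hWh
  have hF : ((I : Set G) ∩ D).Finite := I.finite_toSet.inter_of_left _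
  obtain ⟨h1, h2, h3, h4⟩ := hgS _ hF
  have h5 : ∀ i, S ((I : Set G) ∩ D) i ⊆ D := by
    intro i
    refine Subset.trans ?_ (hD _ hF inter_subset_right)
    intro s hs
    exact mem_iUnion.2 ⟨i, hF, hs⟩
  have h6 : ∀ i, g ((I : Set G) ∩ D) i ∈ {k | (v k ∩ N).Nonempty} := by
    intro i
    classical
    obtain ⟨z, hz, hz'⟩ := exists_mem hf ((I : Set G) ∪ S ((I : Set G) ∩ D) i)
      (I.countable_toSet.union (h3 i).countable)
      fun s => if s ∈ S ((I : Set G) ∩ D) i then y ((I : Set G) ∩ D) i s else h s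
    refine ⟨⟨z, hz⟩, h4 i _ ?_, hWN ?_⟩
    · intro s hs
      show z s = _
      rw [hz' s (Or.inr hs), if_pos hs]
    · apply hwQ
      intro s hs
      show z s ∈ w s
      rw [hz' s (Or.inl hs)]
      split_ifs with h7
      · have h8 : s ∈ D := h5 i h7
        rw [h2 i s ⟨hs, h8⟩, ← hhb s h8]
        exact (hw s hs).2
      · exact (hw s hs).2
  have h7 : (range (g ((I : Set G) ∩ D))).Infinite := infinite_range_of_injective h1
  apply h7
  refine hNfin.subset ?_
  rintro _ ⟨i, rfl⟩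
  exact h6 i

end Pool.Agent.Results.MP_f351c6_gt.NotParacompact
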